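import Pool.Agent.helper64.D2.SpecF

set_option autoImplicit false

open Filter Topology
open scoped commutatorElement

namespace Pool.Agent.helper64.D2

theorem GGB_tr (t : ℝ) (x : ℝ) : gg (CircleDeg1Lift.translate (Multiplicative.ofAdd t)) x = x + t := by
  show (CircleDeg1Lift.translate (Multiplicative.ofAdd t) : CircleDeg1Lift) x = x + t
  rw [CircleDeg1Lift.translate_apply, add_comm]

theorem GGB_trinv (t : ℝ) :
    (CircleDeg1Lift.translate (Multiplicative.ofAdd t))⁻¹ = CircleDeg1Lift.translate (Multiplicative.ofAdd (-t)) := by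
  rw [← map_inv, ofAdd_neg]

theorem GGB : GGB_stmt := by
  refine ⟨?_, ?_, ?_, ?_, ?_, ?_, ?_, ?_⟩
  · intro g h hgh
    exact Units.ext (CircleDeg1Lift.ext hgh)
  · intro g h x
    rfl
  · intro x
    rfl
  · intro g x
    constructor
    · show ((g⁻¹ : CircleDeg1Liftˣ) : CircleDeg1Lift) ((g : CircleDeg1Lift) x) = x
      exact CircleDeg1Lift.units_inv_apply_apply g x
    · show (g : CircleDeg1Lift) (((g⁻¹ : CircleDeg1Liftˣ) : CircleDeg1Lift) x) = x
      exact CircleDeg1Lift.units_apply_inv_apply g x
  · intro g x n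
    exact (g : CircleDeg1Lift).map_add_int x n
  · intro g
    have hm : Monotone (gg g) := (g : CircleDeg1Lift).monotone
    have hi : Function.Injective (gg g) := by
      intro a b hab
      have := congrArg (((g⁻¹ : CircleDeg1Liftˣ) : CircleDeg1Lift)) hab
      have h1 : ((g⁻¹ : CircleDeg1Liftˣ) : CircleDeg1Lift) ((g : CircleDeg1Lift) a) = a :=
        CircleDeg1Lift.units_inv_apply_apply g a
      have h2 : ((g⁻¹ : CircleDeg1Liftˣ) : CircleDeg1Lift) ((g : CircleDeg1Lift) b) = b :=
        CircleDeg1Lift.units_inv_apply_apply g b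
      unfold gg at this
      rw [h1, h2] at this
      exact this
    exact hm.strictMono_of_injective hi
  · intro t
    refine ⟨?_, GGB_tr t⟩
    show ContDiff ℝ 2 _ ∧ ContDiff ℝ 2 _
    constructor
    · have : (⇑((CircleDeg1Lift.translate (Multiplicative.ofAdd t) : CircleDeg1Liftˣ) : CircleDeg1Lift) : ℝ → ℝ)
          = fun x => x + t := funext (GGB_tr t)
      rw [this]
      exact contDiff_id.add contDiff_const
    · rw [GGB_trinv]
      have : (⇑((CircleDeg1Lift.translate (Multiplicative.ofAdd (-t)) : CircleDeg1Liftˣ) : CircleDeg1Lift) : ℝ → ℝ)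
          = fun x => x + (-t) := funext (GGB_tr (-t))
      rw [this]
      exact contDiff_id.add contDiff_const
  · intro n g
    apply Units.ext
    apply CircleDeg1Lift.ext
    intro x
    show (CircleDeg1Lift.translate (Multiplicative.ofAdd (n : ℝ)) : CircleDeg1Lift) ((g : CircleDeg1Lift) x)
      = (g : CircleDeg1Lift) ((CircleDeg1Lift.translate (Multiplicative.ofAdd (n : ℝ)) : CircleDeg1Lift) x)
    rw [CircleDeg1Lift.translate_apply, CircleDeg1Lift.translate_apply]
    exact ((g : CircleDeg1Lift).map_int_add n x).symm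

end Pool.Agent.helper64.D2
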